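import Pool.Agent.Lib.MP_cfacaa_ag.G.Main
import Pool.Agent.Lib.MP_cfacaa_ag.G.Conv

/-!
Strong abundance for the ambient classes of complete intersections with nef anticanonical class, in
particular of complete intersection Calabi–Yau varieties, in products of projective spaces.
-/

namespace Pool.Agent.Results.MP_cfacaa_ag.CompleteIntersections

open Pool.Agent.MP_cfacaa_ag.G

/-- Let `X` be the common zero set, in a product of projective spaces of any dimensions (`i : E` the factors, `k : I`
the homogeneous coordinates, `n i = dim S.fac i` the dimension of the factor `i`), of forms `F v`, `v : V`, of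
multidegrees `e v` with `∑ v, e v i ≤ n i + 1` for all `i` (equality: `X` is a Calabi–Yau variety). For a set `W` of
equations put `c W = ∑ (n i, i a factor involved in W) - |W|`. Suppose that `c W ≥ 2` for all nonempty `W`, that
`c W ≥ 3` if `|W| ≥ 2` and `∑ w ∈ W, e w i = n i + 1` for some factor `i`, and that `e u i ≤ n i` for some factor
involved in `F u` if `c {u} = 2`. Then a class `∑ d i • H i` is nonnegative on all rational curves of `X` if and only if
the line bundle `𝒪_X(d)` is globally generated. -/
theorem result (V I E : Type) [Fintype V] [Fintype I] [Fintype E] (S : Sys V I E) (hS : S.Wide) (d : E → ℤ) :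
    NonnegOnCurves S d ↔ GloballyGenerated S d := by
  classical
  exact ⟨main S hS d, nonnegOnCurves_of_globallyGenerated⟩

end Pool.Agent.Results.MP_cfacaa_ag.CompleteIntersections
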