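import Pool.Agent.Lib.MP_cfacaa_ag.Fl.M3

/-!
Lines on complete intersections in products of partial flag varieties of type A, and strong abundance for their ambient classes.
-/

namespace Pool.Agent.Results.MP_cfacaa_ag.FlagVarieties

open Pool.Agent.MP_cfacaa_ag.Fl

/-- Let `Y` be a product of partial flag varieties (block `k`: the flags with the indices `j ∈ T` of the block `k`; the number of the elements of the
block is the dimension of the vector space), `𝒪(ω_j)`, `j ∈ T`, the fundamental line bundles (the basis of `Pic Y`), and `X` the zero set in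
`Y` of sections `F v`, `v : V`, of nef line bundles `𝒪(e v)`. If the class `i` satisfies the numerical condition `Lines i`, or the system is `Wide`,
then `X` contains lines of class `i`. Let `X` be nonempty, and `d` a class of `Y` with `0 ≤ d j` for all `j ∈ T` which are neither free nor satisfy the
condition for lines. Then `d` is nef on `X` if and only if it is globally generated on `X`, if and only if all its coefficients are nonnegative. -/
theorem result (V I κ : Type) [Fintype V] [Fintype I] [LinearOrder I] (S : FSys V I κ) :
    (∀ i ∈ S.T, S.Lines i ∨ S.Wide → S.HasLine i) ∧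
      (S.cone.Nonempty → ∀ d : Pos S.blk → ℤ, (∀ j, j ∉ S.T → d j = 0) →
        (∀ j ∈ S.T, S.Free j ∨ S.Lines j ∨ S.Wide ∨ 0 ≤ d j) →
        (S.Nef d ↔ S.GloballyGenerated d) ∧ (S.GloballyGenerated d ↔ ∀ j, 0 ≤ d j)) := by
  have hl : ∀ i, S.Lines i ∨ S.Wide → S.HasLine i := by
    rintro i (h | h)
    · exact hasLine S i h
    · exact hasLine S i (lines_of_wide S h i)
  refine ⟨fun i _ => hl i, fun hne d hd hc => ?_⟩
  have h1 : S.Nef d → ∀ j, 0 ≤ d j := by
    intro h j
    by_cases hj : j ∈ S.T
    · have h2 : S.HasLine j → 0 ≤ d j := by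
        rintro ⟨A, k, hk, hA⟩
        exact nonneg_of_nef_T S h j hj hk hA
      rcases hc j hj with h3 | h3 | h3 | h3
      · exact nonneg_of_nef_free S hne h j hj h3
      · exact h2 (hl j (Or.inl h3))
      · exact h2 (hl j (Or.inr h3))
      · exact h3
    · exact (hd j hj).ge
  exact ⟨⟨fun h => FSys.gg_of_nonneg d hd (h1 h), FSys.nef_of_gg⟩,
    ⟨fun h => h1 (FSys.nef_of_gg h), FSys.gg_of_nonneg d hd⟩⟩

end Pool.Agent.Results.MP_cfacaa_ag.FlagVarieties
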