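import Pool.Agent.Lib.MP_cfacaa_ag.K.Wide

/-!
Strong abundance for the nef ambient classes of complete intersection Calabi–Yau varieties in products of projective
spaces.
-/

namespace Pool.Agent.Results.MP_cfacaa_ag.NefAmbient

open Pool.Agent.MP_cfacaa_ag.G Pool.Agent.MP_cfacaa_ag.K

/-- Let `X` be the common zero set, in a product of projective spaces (`i : E` the factors, `k : I` the homogeneous coordinates,
`n i = dim S.fac i` the dimension of the factor `i`), of forms `F v`, `v : V`, of multidegrees `e v` with `∑ v, e v i = n i + 1` for
all `i` (the Calabi–Yau condition); `V i` the set of the equations which involve `i`, so `|V i| ≤ n i + 1`. Suppose that (A) if `|V i| = n i + 1` then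
`i` is free (for all systems with the same multidegrees the projection forgetting `i` has an infinite fibre) or the equations of `V i` have the same multidegree;
(B) every connected part of the configuration contains a free factor, or has dimension at least three and each of its equations has total degree at least
two and involves factors of total dimension at least three. Then a class `∑ d i • H i` is nef if and only if the line bundle `𝒪_X(d)` is globally generated.
(`tame_of_wide`: the hypotheses hold for the Calabi–Yau systems of `CompleteIntersections`. `free_of_few`, `free_of_lines`: criteria for free factors.) -/
theorem result (V I E : Type) [Fintype V] [Fintype I] [Fintype E] (S : Sys V I E) (hS : Tame S) (d : E → ℤ) :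
    Nef S d ↔ GloballyGenerated S d :=
  ⟨gg_of_nef S hS d, nef_of_gg⟩

end Pool.Agent.Results.MP_cfacaa_ag.NefAmbient
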