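import Pool.Agent.Lib.MP_cfacaa_ag.Tor.G1
import Pool.Agent.Lib.MP_cfacaa_ag.Tor.G2

/-!
Strong abundance for nef classes on Calabi–Yau zero sets in toric varieties.
-/

namespace Pool.Agent.Results.MP_cfacaa_ag.ToricZeroSets

open Pool.Agent.MP_cfacaa_ag.Tor

/-- Let `X` be the zero set of homogeneous equations `F v = 0` of degrees `γ v`, in Cox coordinates `x i` of degrees
`β i`, in a projective toric variety `V` (polarization `A`); `X` lies in the smooth locus of `V` (`S.Good`), but may be
singular. Let `D` be a class such that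

* either (`Wide`) for every wall `l` between `D` and the ample cone there is a point `u` of `X` at which the contraction
  of the wall is not an isomorphism and near which `X` is given, in the fibre of the contraction through `u`, by
  few equations or by equations of small degree;
* or the anticanonical class of `X` and the degrees of all equations are semiample on `X` (for instance, `X` is a
  Calabi–Yau complete intersection of nef divisors: `∑ v, γ v = ∑ i, β i`), and `D` is movable on `V` (along
  `X`).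

Then `D` is nef on `X` if and only if some positive multiple of `D` is globally generated on `X`, and also if and only
if for some `n > 0` the monomials of degree `n • D` have no common zero on `X`. -/
theorem result (ι κ : Type) [Fintype ι] [Fintype κ] (r : ℕ) (S : Sys ι κ r) (hS : S.Good) (D : Fin r → ℤ)
    (hD : S.Wide D ∨ (S.AntiNef ∧ S.Movable D)) :
    (S.Nef D ↔ ∃ n : ℕ, 0 < n ∧ S.GloballyGenerated (n • D)) ∧
      (S.Nef D ↔ ∃ n : ℕ, 0 < n ∧ ∀ x ∈ S.cone, ∃ e : ι → ℕ, dg S.β e = n • D ∧ mo x e ≠ 0) := by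
  have hW : S.Wide D := hD.elim id fun h => wide_of_antiNef h.1 h.2
  have h1 : S.Nef D → ∃ n : ℕ, 0 < n ∧ ∀ x ∈ S.cone, ∃ e : ι → ℕ, dg S.β e = n • D ∧ mo x e ≠ 0 :=
    fun h => uniform S.β S.cone D (semiample_of_nef hS hW h)
  have h2 : (∃ n : ℕ, 0 < n ∧ ∀ x ∈ S.cone, ∃ e : ι → ℕ, dg S.β e = n • D ∧ mo x e ≠ 0) →
      ∃ n : ℕ, 0 < n ∧ S.GloballyGenerated (n • D) := by
    rintro ⟨n, hn, h⟩
    refine ⟨n, hn, fun x hx => ?_⟩
    obtain ⟨e, he, hxe⟩ := h x hx
    refine ⟨fun x => mo x e, ?_, hxe⟩
    rw [← he]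
    exact isSection_mon S e
  have h3 : (∃ n : ℕ, 0 < n ∧ S.GloballyGenerated (n • D)) → S.Nef D := fun ⟨n, hn, h⟩ => nef_of_generated hn h
  exact ⟨⟨fun h => h2 (h1 h), h3⟩, ⟨h1, fun h => h3 (h2 h)⟩⟩

end Pool.Agent.Results.MP_cfacaa_ag.ToricZeroSets
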